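import Pool.Agent.Q202.QT.Ker

/-!
# The weak unramified Fontaine-Mazur conjecture in rank two: four tame primes

Let `p ≥ 5` be a prime and let `a`, `b`, `c` be different primes congruent to `1` modulo `p` whose linking determinant
`χ_b(a) χ_c(b) χ_a(c) - χ_c(a) χ_a(b) χ_b(c)` is not zero. For at least the proportion `(p - 1) ^ 5 (p - 4) / (2 p ^ 6)` (which
tends to `1 / 2` for large `p`) of all primes `q` congruent to `1` modulo `p` the following holds: for every number field `K` which
is unramified at `p` and at all primes congruent to `1` modulo `p` other than `a`, `b`, `c`, `q`, every residually unipotent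
continuous `ρ : Gal(ℚbar/ℚ) → GL_2(A)` whose restriction to the absolute Galois group of `K` is everywhere unramified has finite
image. Here `A` is any discrete valuation ring of characteristic `0` whose residue field has odd degree over the field with `p`
elements, for example `ℤ_p`.

The Galois group of the maximal `p`-extension of `ℚ` unramified outside `a`, `b`, `c`, `q` has four generators and four relations;
it is always infinite, by the theorem of Golod and Shafarevich.

Proof. By the criterion `NoPlane` of the starting library (`Pool.Agent.Results.MP_ca71b5_nt.RankTwoExtensions.result`) one has to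
exclude a plane of characters with vanishing cup products. The Plücker coordinates of such a plane satisfy four linear relations and
the Plücker relation; this is a zero of a binary quadratic form, which exists over the residue field if and only if the discriminant
is a square (`Pool.Agent.Q202.QT.quad`). The linking numbers of a prime `q` with `a`, `b`, `c` are equidistributed
(`Pool.Agent.Q202.QT.joint`, from the theorem of Chebotarev of helper401), and the discriminant is a nondegenerate ternary quadratic
form of the vector `(χ_a(q), χ_b(q), χ_c(q))`, hence a nonsquare for nearly half of the vectors.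
-/

set_option autoImplicit false

open NumberField Matrix IsLocalRing

namespace Pool.Agent.Results.MP_ca71b5_nt.TameQuadruples

open Finset Filter
open Pool.Agent.Results.MP_ca71b5_nt.RankTwoExtensions
open Pool.Agent.Q202.RT Pool.Agent.Q202.QT
open Pool.Agent.W569.TG (lk)

/-- The rank two case of the conjecture over all number fields unramified at `p` whose tame ramification is in `T`: for all finite
sets `S` of primes different from `p` whose members congruent to `1` modulo `p` are in `T`, all number fields `K` unramified outside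
`S`, all discrete valuation rings `A` of characteristic `0` with residue field of order `p ^ d`, `d` odd, every continuous residually
unipotent `ρ : Gal(ℚbar/ℚ) → GL_2(A)` whose restriction to the absolute Galois group of `K` is unramified at all primes has finite
image. -/
def TameTowerFinite (p : ℕ) (T : Set ℕ) : Prop :=
  ∀ S : Finset ℕ, (∀ l ∈ S, l.Prime ∧ l ≠ p) → (∀ l ∈ S, p ∣ l - 1 → l ∈ T) →
    ∀ (K : IntermediateField ℚ (AlgebraicClosure ℚ)) [FiniteDimensional ℚ K], FieldUnramifiedOutside S K →
    ∀ (A : Type) [CommRing A] [IsDomain A] [IsDiscreteValuationRing A] [CharZero A] [TopologicalSpace A],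
      IsAdic (maximalIdeal A) → (∃ d, Odd d ∧ Nat.card (ResidueField A) = p ^ d) → (p : A) ∈ maximalIdeal A →
    ∀ ρ : Gal(AlgebraicClosure ℚ/ℚ) →* GL (Fin 2) A, Continuous ρ → UnramifiedOver K ρ → ResiduallyUnipotent ρ →
      (Set.range ρ).Finite

open Classical in
/-- The primes `q ≤ x` with `p ∣ q - 1`. -/
noncomputable def Pr (p x : ℕ) : Finset ℕ := (range (x + 1)).filter fun q => q.Prime ∧ p ∣ q - 1

theorem Pr_eq (p x : ℕ) [Fact p.Prime] : Pr p x = P1 p x := by
  ext l
  rw [mem_P1, Pr, mem_filter, mem_range]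
  constructor
  · rintro ⟨h1, h2, h3⟩
    exact ⟨by omega, h2, h3⟩
  · rintro ⟨h1, h2, h3⟩
    exact ⟨by omega, h2, h3⟩

theorem good_of {p : ℕ} [Fact p.Prime] (hp2 : p ≠ 2) (χ : ∀ j : ℕ, (ZMod j)ˣ →* Multiplicative (ZMod p)) (hχ : Kr χ)
    (a b c q : ℕ) (ha : a.Prime) (hb : b.Prime) (hc : c.Prime) (hq : q.Prime) (hpa : p ∣ a - 1) (hpb : p ∣ b - 1)
    (hpc : p ∣ c - 1) (hpq : p ∣ q - 1) (hab : a ≠ b) (hac : a ≠ c) (hbc : b ≠ c) (hqa : q ≠ a) (hqb : q ≠ b) (hqc : q ≠ c)
    (h3 : GT χ a b c q) : TameTowerFinite p {a, b, c, q} := by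
  intro S hS hT K _ hK A _ _ _ _ _ hA hodd hpm ρ hρ hur hres
  have hp : p.Prime := Fact.out
  have hchar : CharP (ResidueField A) p := Pool.Agent.TH831.OE.charP_res hp hpm
  obtain ⟨d, hd, hcard⟩ := hodd
  have hfin : Finite (ResidueField A) := Nat.finite_of_card_ne_zero (by rw [hcard]; exact pow_ne_zero _ hp.ne_zero)
  have hS' : ∀ j ∈ insert a (insert b (insert c (insert q S))), j.Prime ∧ j ≠ p := by
    intro j hj
    rw [mem_insert, mem_insert, mem_insert, mem_insert] at hj
    rcases hj with rfl | rfl | rfl | rfl | hj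
    · exact ⟨ha, hnep ha hpa⟩
    · exact ⟨hb, hnep hb hpb⟩
    · exact ⟨hc, hnep hc hpc⟩
    · exact ⟨hq, hnep hq hpq⟩
    · exact hS j hj
  have hT' : Tame p (insert a (insert b (insert c (insert q S)))) = {a, b, c, q} := by
    ext j
    simp only [Tame, mem_filter, mem_insert, mem_singleton]
    constructor
    · rintro ⟨rfl | rfl | rfl | rfl | hj, h⟩
      · exact Or.inl rfl
      · exact Or.inr (Or.inl rfl)
      · exact Or.inr (Or.inr (Or.inl rfl))
      · exact Or.inr (Or.inr (Or.inr rfl))
      · simpa using hT j hj h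
    · rintro (rfl | rfl | rfl | rfl)
      · exact ⟨Or.inl rfl, hpa⟩
      · exact ⟨Or.inr (Or.inl rfl), hpb⟩
      · exact ⟨Or.inr (Or.inr (Or.inl rfl)), hpc⟩
      · exact ⟨Or.inr (Or.inr (Or.inr (Or.inl rfl))), hpq⟩
  refine RankTwoExtensions.result p hp2 (insert a (insert b (insert c (insert q S)))) (fun l hl => (hS' l hl).1) K
    (fun P hP h => hK P hP fun j hj => h j ?_) A hA hfin hpm ρ hρ hur hres (Or.inl ⟨χ, ?_,
      plane_tame hp2 hd hcard χ _ a b c q ha.ne_one hb.ne_one hc.ne_one hq.ne_one hT' hab hac hqa.symm hbc hqb.symm hqc.symm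
      (fun h => (hS' p h).2 rfl) h3⟩)
  · exact mem_insert_of_mem (mem_insert_of_mem (mem_insert_of_mem (mem_insert_of_mem hj)))
  · intro j hj
    have h1 := mem_filter.1 hj
    exact (hχ j (hS' j h1.1).1 h1.2).1

open Classical in
/-- **The weak unramified conjecture in rank two for fields unramified at `p` and four tame primes.** -/
theorem result (p : ℕ) [Fact p.Prime] (hp5 : 5 ≤ p) (a b c : ℕ) (ha : a.Prime) (hb : b.Prime) (hc : c.Prime)
    (hpa : p ∣ a - 1) (hpb : p ∣ b - 1) (hpc : p ∣ c - 1) (hab : a ≠ b) (hac : a ≠ c) (hbc : b ≠ c)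
    (χ : ∀ j : ℕ, (ZMod j)ˣ →* Multiplicative (ZMod p)) (hχ : ∀ j ∈ ({a, b, c} : Set ℕ), ∃ x, χ j x ≠ 1)
    (hD : linking (ZMod p) b a (χ b) * linking (ZMod p) c b (χ c) * linking (ZMod p) a c (χ a) ≠
      linking (ZMod p) c a (χ c) * linking (ZMod p) a b (χ a) * linking (ZMod p) b c (χ b)) (ε : ℝ) (hε : 0 < ε) :
    ∀ᶠ x : ℕ in atTop, (((p : ℝ) - 1) ^ 5 * ((p : ℝ) - 4) / (2 * (p : ℝ) ^ 6) - ε) * ((Pr p x).card : ℝ) ≤
      (((Pr p x).filter fun q => q ∉ ({a, b, c} : Set ℕ) ∧ TameTowerFinite p {a, b, c, q}).card : ℝ) := by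
  obtain ⟨χ', hχ', heq⟩ := extend χ {a, b, c} (fun j hj _ _ => hχ j hj)
  have hmem : ∀ j, j = a ∨ j = b ∨ j = c → χ' j = χ j := fun j hj => heq j (by simpa using hj)
  have hD3 : D3 χ' a b c ≠ 0 := by
    unfold D3
    rw [lk_of_eq (hmem b (by simp)), lk_of_eq (hmem c (by simp)), lk_of_eq (hmem a (by simp)), lk_of_eq (hmem c (by simp)),
      lk_of_eq (hmem a (by simp)), lk_of_eq (hmem b (by simp)), sub_ne_zero]
    exact hD
  filter_upwards [dens_tame hp5 χ' hχ' a b c ha hb hc hpa hpb hpc hab hac hbc hD3 ε hε] with x hx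
  rw [Pr_eq]
  refine le_trans hx (Nat.cast_le.2 (card_le_card ?_))
  intro q hq
  rw [mem_filter] at hq ⊢
  obtain ⟨h1, h2, h3, h4, h5⟩ := hq
  have h6 := mem_P1.1 h1
  exact ⟨h1, by simp [h2, h3, h4], good_of (by omega) χ' hχ' a b c q ha hb hc h6.2.1 hpa hpb hpc h6.2.2 hab hac hbc h2 h3 h4 h5⟩

end Pool.Agent.Results.MP_ca71b5_nt.TameQuadruples
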