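import Pool.Agent.Q202.RT.Np

/-!
# The weak unramified Fontaine-Mazur conjecture in rank two: fields unramified at `p`, most triples of primes

Let `p` be an odd prime and let `a`, `b` be distinct primes congruent to `1` modulo `p` such that `a` is not a `p`-th power modulo
`b`. For at least the proportion `(1 - 1 / p) ^ 2` of all primes `q` congruent to `1` modulo `p` the following holds: for every
number field `K` which is unramified at `p` and at all primes congruent to `1` modulo `p` other than `a`, `b`, `q`, every residually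
unipotent continuous `ρ : Gal(ℚbar/ℚ) → GL_2(A)` whose restriction to the absolute Galois group of `K` is everywhere unramified has
finite image.

Proof: the criterion `NoPlane` of the starting library (`Pool.Agent.Results.MP_ca71b5_nt.RankTwoExtensions.result`) for three tame
primes is the nonvanishing of one determinant of linking numbers; new is its density (`Pool.Agent.Q202.RT.bad_triple`): in each
residue class of `q` modulo `p a b` the determinant vanishes if and only if an explicit number `a ^ s b ^ t` is a `p`-th power modulo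
`q`; the theorem of Chebotarev (helper401) applies.
-/

set_option autoImplicit false

open NumberField Matrix IsLocalRing

namespace Pool.Agent.Results.MP_ca71b5_nt.TameTriples

open Finset Filter
open Pool.Agent.Results.MP_ca71b5_nt.RankTwoExtensions
open Pool.Agent.Q202.RT
open Pool.Agent.W569.TG (lk)

/-- The rank two case of the conjecture over all number fields unramified at `p` whose tame ramification is in `T`: for all finite
sets `S` of primes different from `p` whose members congruent to `1` modulo `p` are in `T`, all number fields `K` unramified outside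
`S`, all discrete valuation rings `A` of characteristic `0` with finite residue field of characteristic `p`, every continuous
residually unipotent `ρ : Gal(ℚbar/ℚ) → GL_2(A)` whose restriction to the absolute Galois group of `K` is unramified at all primes
has finite image. -/
def TameTowerFinite (p : ℕ) (T : Set ℕ) : Prop :=
  ∀ S : Finset ℕ, (∀ l ∈ S, l.Prime ∧ l ≠ p) → (∀ l ∈ S, p ∣ l - 1 → l ∈ T) →
    ∀ (K : IntermediateField ℚ (AlgebraicClosure ℚ)) [FiniteDimensional ℚ K], FieldUnramifiedOutside S K →
    ∀ (A : Type) [CommRing A] [IsDomain A] [IsDiscreteValuationRing A] [CharZero A] [TopologicalSpace A],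
      IsAdic (maximalIdeal A) → Finite (ResidueField A) → (p : A) ∈ maximalIdeal A →
    ∀ ρ : Gal(AlgebraicClosure ℚ/ℚ) →* GL (Fin 2) A, Continuous ρ → UnramifiedOver K ρ → ResiduallyUnipotent ρ →
      (Set.range ρ).Finite

open Classical in
/-- The primes `q ≤ x` with `p ∣ q - 1`. -/
noncomputable def Pr (p x : ℕ) : Finset ℕ := (range (x + 1)).filter fun q => q.Prime ∧ p ∣ q - 1

theorem Pr_eq (p x : ℕ) [Fact p.Prime] : Pr p x = P1 p x := by
  ext l
  rw [mem_P1, Pr, mem_filter, mem_range]
  constructor
  · rintro ⟨h1, h2, h3⟩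
    exact ⟨by omega, h2, h3⟩
  · rintro ⟨h1, h2, h3⟩
    exact ⟨by omega, h2, h3⟩

section
variable {p : ℕ} [Fact p.Prime]

theorem good_of (hp2 : p ≠ 2) (χ : ∀ j : ℕ, (ZMod j)ˣ →* Multiplicative (ZMod p)) (hχ : Kr χ) (a b q : ℕ)
    (ha : a.Prime) (hb : b.Prime) (hq : q.Prime) (hpa : p ∣ a - 1) (hpb : p ∣ b - 1) (hpq : p ∣ q - 1) (hab : a ≠ b)
    (h3 : D3 χ a b q ≠ 0) : TameTowerFinite p {a, b, q} := by
  intro S hS hT K _ hK A _ _ _ _ _ hA hfin hpm ρ hρ hur hres
  have hp : p.Prime := Fact.out
  have hchar : CharP (ResidueField A) p := Pool.Agent.TH831.OE.charP_res hp hpm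
  have haq : a ≠ q := by
    rintro rfl
    apply h3
    unfold D3
    rw [lk_self χ ha.ne_one]
    ring
  have hbq : b ≠ q := by
    rintro rfl
    apply h3
    unfold D3
    rw [lk_self χ hb.ne_one]
    ring
  have hne : ∀ j : ℕ, j.Prime → p ∣ j - 1 → j ≠ p := by
    rintro j hj h rfl
    have := Nat.le_of_dvd (by have := hj.two_le; omega) h
    have := hj.two_le
    omega
  have hS' : ∀ j ∈ insert a (insert b (insert q S)), j.Prime ∧ j ≠ p := by
    intro j hj
    rw [mem_insert, mem_insert, mem_insert] at hj
    rcases hj with rfl | rfl | rfl | hj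
    · exact ⟨ha, hne _ ha hpa⟩
    · exact ⟨hb, hne _ hb hpb⟩
    · exact ⟨hq, hne _ hq hpq⟩
    · exact hS j hj
  have hT' : Tame p (insert a (insert b (insert q S))) = {a, b, q} := by
    ext j
    rw [Tame, mem_filter, mem_insert, mem_insert, mem_insert, mem_insert, mem_insert, mem_singleton]
    constructor
    · rintro ⟨rfl | rfl | rfl | hj, h⟩
      · exact Or.inl rfl
      · exact Or.inr (Or.inl rfl)
      · exact Or.inr (Or.inr rfl)
      · simpa using hT j hj h
    · rintro (rfl | rfl | rfl)
      · exact ⟨Or.inl rfl, hpa⟩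
      · exact ⟨Or.inr (Or.inl rfl), hpb⟩
      · exact ⟨Or.inr (Or.inr (Or.inl rfl)), hpq⟩
  refine result p hp2 (insert a (insert b (insert q S))) (fun l hl => (hS' l hl).1) K (fun P hP h => hK P hP fun j hj => h j ?_)
    A hA hfin hpm ρ hρ hur hres (Or.inl ⟨χ, ?_, plane_triple χ _ a b q ha.ne_one hb.ne_one hq.ne_one hT' hab haq hbq
      (fun h => (hS' p h).2 rfl) h3⟩)
  · exact mem_insert_of_mem (mem_insert_of_mem (mem_insert_of_mem hj))
  · intro j hj
    have h1 := mem_filter.1 hj
    exact (hχ j (hS' j h1.1).1 h1.2).1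

end

open Classical in
/-- **The weak unramified conjecture in rank two for fields unramified at `p` and most triples of primes.** -/
theorem result (p : ℕ) [Fact p.Prime] (hp2 : p ≠ 2) (a b : ℕ) (ha : a.Prime) (hb : b.Prime) (hpa : p ∣ a - 1) (hpb : p ∣ b - 1)
    (hab : a ≠ b) (h : ¬ ∃ y : ZMod b, y ^ p = (a : ZMod b)) (ε : ℝ) (hε : 0 < ε) :
    ∀ᶠ x : ℕ in atTop, ((1 - 1 / (p : ℝ)) ^ 2 - ε) * ((Pr p x).card : ℝ) ≤
      (((Pr p x).filter fun q => TameTowerFinite p {a, b, q}).card : ℝ) := by
  have hp : p.Prime := Fact.out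
  obtain ⟨χ, hχ⟩ := Pool.Agent.TH146.FM.exists_chi p
  have hχ' : Kr χ := hχ
  have h12 : lk χ a b ≠ 0 := fun h' => h ((Pool.Agent.TH146.FM.lk_eq_zero_iff hb hpb ha hab (hχ b hb hpb).2).1 h')
  filter_upwards [bad_triple hp2 χ hχ' a b ha hb hpa hpb hab h12 ε hε] with x hx
  rw [Pr_eq]
  have h1 : (P1 p x).card ≤ ((P1 p x).filter fun q => D3 χ a b q = 0).card +
      ((P1 p x).filter fun q => TameTowerFinite p {a, b, q}).card := by
    have : P1 p x ⊆ ((P1 p x).filter fun q => D3 χ a b q = 0) ∪ ((P1 p x).filter fun q => TameTowerFinite p {a, b, q}) := by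
      intro q hq
      by_cases hb' : D3 χ a b q = 0
      · exact mem_union_left _ (mem_filter.2 ⟨hq, hb'⟩)
      · have h2 := mem_P1.1 hq
        exact mem_union_right _ (mem_filter.2 ⟨hq, good_of hp2 χ hχ' a b q ha hb h2.2.1 hpa hpb h2.2.2 hab hb'⟩)
    exact (card_le_card this).trans (card_union_le _ _)
  have h2 : ((P1 p x).card : ℝ) ≤ (((P1 p x).filter fun q => D3 χ a b q = 0).card : ℝ) +
      (((P1 p x).filter fun q => TameTowerFinite p {a, b, q}).card : ℝ) := by exact_mod_cast h1
  have h3 : (((P1 p x).filter fun q => D3 χ a b q = 0).card : ℝ) ≤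
      (1 - (1 - 1 / (p : ℝ)) ^ 2 + ε) * ((P1 p x).card : ℝ) := by
    convert hx
  linarith

end Pool.Agent.Results.MP_ca71b5_nt.TameTriples
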