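import Pool.Agent.Q202.RT.Np

/-!
# The weak unramified Fontaine-Mazur conjecture in rank two: fields ramified at `p` and most pairs of primes

Let `p` be an odd prime and `k` a prime congruent to `1` modulo `p`. If `p ^ 2 ∤ k - 1`, then for at least the proportion
`(1 - 1 / p) ^ 2` of the primes `l` with `p ∣ l - 1`, `p ^ 2 ∤ l - 1`, and if `p` is not a `p`-th power modulo `k`, then for at least
the proportion `1 - 1 / p` of them, the following holds: for every number field `K` which is unramified at all primes congruent to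
`1` modulo `p` other than `k` and `l` (ramification at `p` and at the other primes is allowed), every residually unipotent continuous
`ρ : Gal(ℚbar/ℚ) → GL_2(A)` whose restriction to the absolute Galois group of `K` is everywhere unramified has finite image.

Proof: the criterion `NoPlane` of the starting library (`Pool.Agent.Results.MP_ca71b5_nt.RankTwoExtensions.result`) for
`{p, k, l}` is the nonvanishing of one determinant of linking numbers; new is its density (`Pool.Agent.Q202.RT.bad_pair`,
`bad_pair2`): in each residue class of `l` modulo `p ^ 2 k` the determinant vanishes if and only if an explicit number `k ^ s p ^ t`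
is a `p`-th power modulo `l`; the theorem of Chebotarev (helper401) applies.
-/

set_option autoImplicit false

open NumberField Matrix IsLocalRing

namespace Pool.Agent.Results.MP_ca71b5_nt.WildPairs

open Finset Filter
open Pool.Agent.Results.MP_ca71b5_nt.RankTwoExtensions
open Pool.Agent.Q202.RT
open Pool.Agent.W569.TG (lk)
open Pool.Agent.Q315.FM (clp mem_clp)

/-- The rank two case of the conjecture over all number fields whose tame ramification is in `T`: for all finite sets `S` of primes
whose members congruent to `1` modulo `p` are in `T` (`p` in `S` is allowed), all number fields `K` unramified outside `S`, all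
discrete valuation rings `A` of characteristic `0` with finite residue field of characteristic `p`, every continuous residually
unipotent `ρ : Gal(ℚbar/ℚ) → GL_2(A)` whose restriction to the absolute Galois group of `K` is unramified at all primes has finite
image. -/
def TowerFinite (p : ℕ) (T : Set ℕ) : Prop :=
  ∀ S : Finset ℕ, (∀ l ∈ S, l.Prime) → (∀ l ∈ S, p ∣ l - 1 → l ∈ T) →
    ∀ (K : IntermediateField ℚ (AlgebraicClosure ℚ)) [FiniteDimensional ℚ K], FieldUnramifiedOutside S K →
    ∀ (A : Type) [CommRing A] [IsDomain A] [IsDiscreteValuationRing A] [CharZero A] [TopologicalSpace A],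
      IsAdic (maximalIdeal A) → Finite (ResidueField A) → (p : A) ∈ maximalIdeal A →
    ∀ ρ : Gal(AlgebraicClosure ℚ/ℚ) →* GL (Fin 2) A, Continuous ρ → UnramifiedOver K ρ → ResiduallyUnipotent ρ →
      (Set.range ρ).Finite

open Classical in
/-- The primes `l ≤ x` with `p ∣ l - 1` and `p ^ 2 ∤ l - 1`. -/
noncomputable def Pr (p x : ℕ) : Finset ℕ := (range (x + 1)).filter fun l => l.Prime ∧ p ∣ l - 1 ∧ ¬ p ^ 2 ∣ l - 1

theorem Pr_eq (p x : ℕ) : Pr p x = clp p 1 x := by
  ext l
  rw [mem_clp, Pr, mem_filter, mem_range, pow_one]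
  constructor
  · rintro ⟨h1, h2, h3, h4⟩
    exact ⟨by omega, h2, h3, h4⟩
  · rintro ⟨h1, h2, h3, h4⟩
    exact ⟨by omega, h2, h3, h4⟩

section
variable {p : ℕ} [Fact p.Prime]

theorem good_of (hp2 : p ≠ 2) (χ : ∀ j : ℕ, (ZMod j)ˣ →* Multiplicative (ZMod p)) (hχ : Kr χ) (k l : ℕ)
    (hk : k.Prime) (hl : l.Prime) (hpk : p ∣ k - 1) (hpl : p ∣ l - 1) (h3 : Dt χ k l ≠ 0) : TowerFinite p {k, l} := by
  intro S hS hT K _ hK A _ _ _ _ _ hA hfin hpm ρ hρ hur hres
  have hp : p.Prime := Fact.out
  have hchar : CharP (ResidueField A) p := Pool.Agent.TH831.OE.charP_res hp hpm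
  have hkl : k ≠ l := by
    rintro rfl
    apply h3
    unfold Dt
    ring
  have hS' : ∀ j ∈ insert p (insert k (insert l S)), j.Prime := by
    intro j hj
    rw [mem_insert, mem_insert, mem_insert] at hj
    rcases hj with rfl | rfl | rfl | hj
    · exact hp
    · exact hk
    · exact hl
    · exact hS j hj
  have hpp : ¬ p ∣ p - 1 := by
    intro h
    have := Nat.le_of_dvd (by have := hp.two_le; omega) h
    have := hp.two_le
    omega
  have hT' : Tame p (insert p (insert k (insert l S))) = {k, l} := by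
    ext j
    rw [Tame, mem_filter, mem_insert, mem_insert, mem_insert, mem_insert, mem_singleton]
    constructor
    · rintro ⟨rfl | rfl | rfl | hj, h⟩
      · exact absurd h hpp
      · exact Or.inl rfl
      · exact Or.inr rfl
      · simpa using hT j hj h
    · rintro (rfl | rfl)
      · exact ⟨Or.inr (Or.inl rfl), hpk⟩
      · exact ⟨Or.inr (Or.inr (Or.inl rfl)), hpl⟩
  refine result p hp2 (insert p (insert k (insert l S))) hS' K (fun P hP h => hK P hP fun j hj => h j ?_) A hA hfin hpm ρ hρ hur
    hres (Or.inl ⟨χ, ?_, plane_pair χ _ k l hk.ne_one hl.ne_one hT' hkl h3⟩)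
  · exact mem_insert_of_mem (mem_insert_of_mem (mem_insert_of_mem hj))
  · intro j hj
    have h1 := mem_filter.1 hj
    exact (hχ j (hS' j h1.1) h1.2).1

open Classical in
theorem count (k : ℕ) (B : ℕ → Prop) (δ ε : ℝ)
    (hB : ∀ l, l.Prime → p ∣ l - 1 → ¬ B l → TowerFinite p {k, l})
    (h : ∀ᶠ x : ℕ in atTop, (((clp p 1 x).filter B).card : ℝ) ≤ (1 - δ + ε) * ((clp p 1 x).card : ℝ)) :
    ∀ᶠ x : ℕ in atTop, (δ - ε) * ((Pr p x).card : ℝ) ≤ (((Pr p x).filter fun l => TowerFinite p {k, l}).card : ℝ) := by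
  filter_upwards [h] with x hx
  rw [Pr_eq]
  have h1 : (clp p 1 x).card ≤ ((clp p 1 x).filter B).card + ((clp p 1 x).filter fun l => TowerFinite p {k, l}).card := by
    have : clp p 1 x ⊆ ((clp p 1 x).filter B) ∪ ((clp p 1 x).filter fun l => TowerFinite p {k, l}) := by
      intro l hl
      by_cases hb : B l
      · exact mem_union_left _ (mem_filter.2 ⟨hl, hb⟩)
      · have h2 := mem_clp.1 hl
        rw [pow_one] at h2
        exact mem_union_right _ (mem_filter.2 ⟨hl, hB l h2.2.1 h2.2.2.1 hb⟩)
    exact (card_le_card this).trans (card_union_le _ _)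
  have h2 : ((clp p 1 x).card : ℝ) ≤ (((clp p 1 x).filter B).card : ℝ) +
      (((clp p 1 x).filter fun l => TowerFinite p {k, l}).card : ℝ) := by exact_mod_cast h1
  linarith

end

open Classical in
/-- **The weak unramified conjecture in rank two for fields ramified at `p` and most pairs of primes.** -/
theorem result (p : ℕ) [Fact p.Prime] (hp2 : p ≠ 2) (k : ℕ) (hk : k.Prime) (hpk : p ∣ k - 1) (ε : ℝ) (hε : 0 < ε) :
    (¬ p ^ 2 ∣ k - 1 → ∀ᶠ x : ℕ in atTop, ((1 - 1 / (p : ℝ)) ^ 2 - ε) * ((Pr p x).card : ℝ) ≤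
      (((Pr p x).filter fun l => TowerFinite p {k, l}).card : ℝ)) ∧
    ((¬ ∃ y : ZMod k, y ^ p = (p : ZMod k)) → ∀ᶠ x : ℕ in atTop, (1 - 1 / (p : ℝ) - ε) * ((Pr p x).card : ℝ) ≤
      (((Pr p x).filter fun l => TowerFinite p {k, l}).card : ℝ)) := by
  have hp : p.Prime := Fact.out
  obtain ⟨χ, hχ⟩ := Pool.Agent.TH146.FM.exists_chi p
  have hχ' : Kr χ := hχ
  have hpk' : p ≠ k := by
    rintro rfl
    have := Nat.le_of_dvd (by have := hk.two_le; omega) hpk
    have := hk.two_le
    omega
  have hiff : lk χ p k = 0 ↔ ∃ y : ZMod k, y ^ p = (p : ZMod k) :=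
    Pool.Agent.TH146.FM.lk_eq_zero_iff hk hpk hp hpk' (hχ k hk hpk).2
  have main : lk χ p k ≠ 0 → ∀ᶠ x : ℕ in atTop, (1 - 1 / (p : ℝ) - ε) * ((Pr p x).card : ℝ) ≤
      (((Pr p x).filter fun l => TowerFinite p {k, l}).card : ℝ) := by
    intro h
    have h1 := bad_pair hp2 χ hχ' k hk hpk h ε hε
    refine count k (fun l => Dt χ k l = 0) (1 - 1 / (p : ℝ)) ε (fun l hl hpl hb => good_of hp2 χ hχ' k l hk hl hpk hpl hb) ?_
    have he : 1 - (1 - 1 / (p : ℝ)) + ε = 1 / (p : ℝ) + ε := by ring
    rw [he]
    filter_upwards [h1] with x hx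
    convert hx
  refine ⟨fun hpk2 => ?_, fun h => main fun h' => h (hiff.1 h')⟩
  by_cases h : lk χ p k = 0
  · refine count k (fun l => lk χ l k = 0 ∨ lk χ p l = 0) ((1 - 1 / (p : ℝ)) ^ 2) ε (fun l hl hpl hb => ?_) ?_
    · push Not at hb
      refine good_of hp2 χ hχ' k l hk hl hpk hpl ?_
      unfold Dt
      rw [h, mul_zero, zero_mul, zero_sub, neg_ne_zero]
      exact mul_ne_zero (mul_ne_zero (lv_ne_zero hpk hpk2) hb.1) hb.2
    · filter_upwards [bad_pair2 hp2 χ hχ' k hk hpk ε hε] with x hx
      convert hx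
  · filter_upwards [main h] with x hx
    refine le_trans (mul_le_mul_of_nonneg_right ?_ (Nat.cast_nonneg _)) hx
    have h1 : (1 : ℝ) ≤ p := by exact_mod_cast hp.one_le
    have h2 : (0 : ℝ) ≤ 1 - 1 / (p : ℝ) := by
      rw [sub_nonneg, div_le_one (by linarith)]
      exact h1
    have h3 : 1 - 1 / (p : ℝ) ≤ 1 := by
      have : 0 ≤ 1 / (p : ℝ) := by positivity
      linarith
    nlinarith

end Pool.Agent.Results.MP_ca71b5_nt.WildPairs
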