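import Pool.Agent.Q202.QT.Ker

/-!
# The weak unramified Fontaine-Mazur conjecture in rank two: fields ramified at `p` and three tame primes

Let `p ≥ 5` be a prime and let `k`, `l` be different primes congruent to `1` modulo `p` with
`u_l χ_l(k) χ_k(p) ≠ u_k χ_k(l) χ_l(p)`, where `u_l = (l - 1) / p`. For at least the proportion `(p - 1) ^ 5 (p - 4) / (2 p ^ 6)`
(which tends to `1 / 2` for large `p`) of all primes `q` congruent to `1` modulo `p` the following holds: for every number field `K`
which is unramified at all primes congruent to `1` modulo `p` other than `k`, `l`, `q` (ramification at `p` and at the other primes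
is allowed), every residually unipotent continuous `ρ : Gal(ℚbar/ℚ) → GL_2(A)` whose restriction to the absolute Galois group of `K`
is everywhere unramified has finite image. Here `A` is any discrete valuation ring of characteristic `0` whose residue field has odd
degree over the field with `p` elements, for example `ℤ_p`.

Proof. By the criterion `NoPlane` of the starting library (`Pool.Agent.Results.MP_ca71b5_nt.RankTwoExtensions.result`) one has to
exclude a plane of characters with vanishing local cup products at `p`, `k`, `l`, `q`. This is a zero of a binary quadratic form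
(`Pool.Agent.Q202.QT.quad`). The linking numbers of `q` with `p`, `k`, `l` (in one direction the residue of `(q - 1) / p` modulo
`p` and `χ_k(q)`, `χ_l(q)`, in the other direction the `p`-th power residue symbols of `p`, `k`, `l` modulo `q`) are equidistributed
(`Pool.Agent.Q202.QT.joint`, from the theorem of Chebotarev of helper401), and the discriminant of the form is a nondegenerate
ternary quadratic form of the first vector, hence a nonsquare for nearly half of the vectors.
-/

set_option autoImplicit false

open NumberField Matrix IsLocalRing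

namespace Pool.Agent.Results.MP_ca71b5_nt.WildTriples

open Finset Filter
open Pool.Agent.Results.MP_ca71b5_nt.RankTwoExtensions
open Pool.Agent.Q202.RT Pool.Agent.Q202.QT
open Pool.Agent.W569.TG (lk)

/-- The rank two case of the conjecture over all number fields whose tame ramification is in `T`: for all finite sets `S` of primes
whose members congruent to `1` modulo `p` are in `T` (`p` in `S` is allowed), all number fields `K` unramified outside `S`, all
discrete valuation rings `A` of characteristic `0` with residue field of order `p ^ d`, `d` odd, every continuous residually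
unipotent `ρ : Gal(ℚbar/ℚ) → GL_2(A)` whose restriction to the absolute Galois group of `K` is unramified at all primes has finite
image. -/
def TowerFinite (p : ℕ) (T : Set ℕ) : Prop :=
  ∀ S : Finset ℕ, (∀ l ∈ S, l.Prime) → (∀ l ∈ S, p ∣ l - 1 → l ∈ T) →
    ∀ (K : IntermediateField ℚ (AlgebraicClosure ℚ)) [FiniteDimensional ℚ K], FieldUnramifiedOutside S K →
    ∀ (A : Type) [CommRing A] [IsDomain A] [IsDiscreteValuationRing A] [CharZero A] [TopologicalSpace A],
      IsAdic (maximalIdeal A) → (∃ d, Odd d ∧ Nat.card (ResidueField A) = p ^ d) → (p : A) ∈ maximalIdeal A →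
    ∀ ρ : Gal(AlgebraicClosure ℚ/ℚ) →* GL (Fin 2) A, Continuous ρ → UnramifiedOver K ρ → ResiduallyUnipotent ρ →
      (Set.range ρ).Finite

open Classical in
/-- The primes `q ≤ x` with `p ∣ q - 1`. -/
noncomputable def Pr (p x : ℕ) : Finset ℕ := (range (x + 1)).filter fun q => q.Prime ∧ p ∣ q - 1

theorem Pr_eq (p x : ℕ) [Fact p.Prime] : Pr p x = P1 p x := by
  ext l
  rw [mem_P1, Pr, mem_filter, mem_range]
  constructor
  · rintro ⟨h1, h2, h3⟩
    exact ⟨by omega, h2, h3⟩
  · rintro ⟨h1, h2, h3⟩
    exact ⟨by omega, h2, h3⟩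

theorem good_of {p : ℕ} [Fact p.Prime] (hp2 : p ≠ 2) (χ : ∀ j : ℕ, (ZMod j)ˣ →* Multiplicative (ZMod p)) (hχ : Kr χ)
    (k l q : ℕ) (hk : k.Prime) (hl : l.Prime) (hq : q.Prime) (hpk : p ∣ k - 1) (hpl : p ∣ l - 1)
    (hpq : p ∣ q - 1) (hkl : k ≠ l) (hqk : q ≠ k) (hql : q ≠ l) (h3 : GW χ k l q) : TowerFinite p {k, l, q} := by
  intro S hS hT K _ hK A _ _ _ _ _ hA hodd hpm ρ hρ hur hres
  have hp : p.Prime := Fact.out
  have hchar : CharP (ResidueField A) p := Pool.Agent.TH831.OE.charP_res hp hpm
  obtain ⟨d, hd, hcard⟩ := hodd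
  have hfin : Finite (ResidueField A) := Nat.finite_of_card_ne_zero (by rw [hcard]; exact pow_ne_zero _ hp.ne_zero)
  have hpp : ¬ p ∣ p - 1 := fun h => hnep hp h rfl
  have hS' : ∀ j ∈ insert p (insert k (insert l (insert q S))), j.Prime := by
    intro j hj
    rw [mem_insert, mem_insert, mem_insert, mem_insert] at hj
    rcases hj with rfl | rfl | rfl | rfl | hj
    · exact hp
    · exact hk
    · exact hl
    · exact hq
    · exact hS j hj
  have hT' : Tame p (insert p (insert k (insert l (insert q S)))) = {k, l, q} := by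
    ext j
    simp only [Tame, mem_filter, mem_insert, mem_singleton]
    constructor
    · rintro ⟨rfl | rfl | rfl | rfl | hj, h⟩
      · exact absurd h hpp
      · exact Or.inl rfl
      · exact Or.inr (Or.inl rfl)
      · exact Or.inr (Or.inr rfl)
      · simpa using hT j hj h
    · rintro (rfl | rfl | rfl)
      · exact ⟨Or.inr (Or.inl rfl), hpk⟩
      · exact ⟨Or.inr (Or.inr (Or.inl rfl)), hpl⟩
      · exact ⟨Or.inr (Or.inr (Or.inr (Or.inl rfl))), hpq⟩
  refine RankTwoExtensions.result p hp2 (insert p (insert k (insert l (insert q S)))) hS' K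
    (fun P hP h => hK P hP fun j hj => h j ?_) A hA hfin hpm ρ hρ hur hres (Or.inl ⟨χ, ?_,
      plane_wild hp2 hd hcard χ _ k l q hk.ne_one hl.ne_one hq.ne_one hT' hkl hqk.symm hql.symm h3⟩)
  · exact mem_insert_of_mem (mem_insert_of_mem (mem_insert_of_mem (mem_insert_of_mem hj)))
  · intro j hj
    have h1 := mem_filter.1 hj
    exact (hχ j (hS' j h1.1) h1.2).1

open Classical in
/-- **The weak unramified conjecture in rank two for fields ramified at `p` and three tame primes.** -/
theorem result (p : ℕ) [Fact p.Prime] (hp5 : 5 ≤ p) (k l : ℕ) (hk : k.Prime) (hl : l.Prime)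
    (hpk : p ∣ k - 1) (hpl : p ∣ l - 1) (hkl : k ≠ l)
    (χ : ∀ j : ℕ, (ZMod j)ˣ →* Multiplicative (ZMod p)) (hχ : ∀ j ∈ ({k, l} : Set ℕ), ∃ x, χ j x ≠ 1)
    (hD : (((l - 1) / p : ℕ) : ZMod p) * linking (ZMod p) l k (χ l) * linking (ZMod p) k p (χ k) ≠
      (((k - 1) / p : ℕ) : ZMod p) * linking (ZMod p) k l (χ k) * linking (ZMod p) l p (χ l)) (ε : ℝ) (hε : 0 < ε) :
    ∀ᶠ x : ℕ in atTop, (((p : ℝ) - 1) ^ 5 * ((p : ℝ) - 4) / (2 * (p : ℝ) ^ 6) - ε) * ((Pr p x).card : ℝ) ≤
      (((Pr p x).filter fun q => q ∉ ({k, l} : Set ℕ) ∧ TowerFinite p {k, l, q}).card : ℝ) := by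
  obtain ⟨χ', hχ', heq⟩ := extend χ {k, l} (fun j hj _ _ => hχ j hj)
  have hmem : ∀ j, j = k ∨ j = l → χ' j = χ j := fun j hj => heq j (by simpa using hj)
  have hD3 : Dt χ' k l ≠ 0 := by
    unfold Dt lv
    rw [lk_of_eq (hmem k (by simp)), lk_of_eq (hmem l (by simp)), lk_of_eq (hmem k (by simp)), lk_of_eq (hmem l (by simp)),
      sub_ne_zero]
    intro h
    apply hD
    linear_combination h
  filter_upwards [dens_wild hp5 χ' hχ' k l hk hl hpk hpl hkl hD3 ε hε] with x hx
  rw [Pr_eq]
  refine le_trans hx (Nat.cast_le.2 (card_le_card ?_))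
  intro q hq
  rw [mem_filter] at hq ⊢
  obtain ⟨h1, h2, h3, h4⟩ := hq
  have h5 := mem_P1.1 h1
  exact ⟨h1, by simp [h2, h3], good_of (by omega) χ' hχ' k l q hk hl h5.2.1 hpk hpl h5.2.2 hkl h2 h3 h4⟩

end Pool.Agent.Results.MP_ca71b5_nt.WildTriples
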